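import Pool.Agent.MP_c481b3_nt.H81.Global

set_option autoImplicit false

namespace Pool.Agent.Results.MP_c481b3_nt.EdgeAngles

open NumberField Pool.Agent.MP_c481b3_nt.H81

/-- the trace of Frobenius `a_P = N P + 1 - #E(O_K / P)` of `y^2 = x^3 + A x + B` -/
noncomputable def trace {K : Type} [Field K] [NumberField K] (A B : 𝓞 K) (P : Ideal (𝓞 K)) : ℤ :=
  (Ideal.absNorm P : ℤ) + 1 - Nat.card ((Wc A B).map (Ideal.Quotient.mk P)).toAffine.Point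

open Classical in
theorem result (K : Type) [Field K] [NumberField K] (A B : 𝓞 K) (hΔ : (Wc A B).Δ ≠ 0)
    (hCM : NoCM (algebraMap (𝓞 K) (AlgebraicClosure K) A)
      (algebraMap (𝓞 K) (AlgebraicClosure K) B)) :
    ∃ C : ℝ, ∀ Y : ℝ, 2 ≤ Y → ∀ S : Finset (Ideal (𝓞 K)),
      (∀ P ∈ S, P.IsMaximal ∧ (Wc A B).Δ ∉ P ∧ 0 < 4 * (Ideal.absNorm P : ℤ) - trace A B P ^ 2 ∧
        ((4 * (Ideal.absNorm P : ℤ) - trace A B P ^ 2 : ℤ) : ℝ) ≤ Y) →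
      ∑ P ∈ S, Real.log (Ideal.absNorm P) ≤ C * Y ^ (3 / 2 : ℝ) * Real.log Y := by
  obtain ⟨c, c1, hc⟩ := main_nat hΔ hCM
  refine ⟨Module.finrank ℚ K * (190 * 27 * (Real.log (9 * c) / Real.log 2 + 1)),
    fun Y hY S hS => ?_⟩
  have Y0 : 0 < Y := by linarith
  refine (hc (Nat.sqrt ⌊Y⌋₊ + 1) S fun P hP => ?_).trans ?_
  · obtain ⟨h1, h2, h3, h4⟩ := hS P hP
    refine ⟨h1, h2, ?_⟩
    rintro a rfl
    refine ⟨h3, ?_⟩
    have h5 := Int.le_floor.2 h4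
    have h6 := Nat.lt_succ_sqrt' ⌊Y⌋₊
    have h7 := Int.natCast_floor_eq_floor Y0.le
    change 4 * (Ideal.absNorm P : ℤ) - trace A B P ^ 2 ≤ _
    have h8 : ((⌊Y⌋₊ : ℕ) : ℤ) < ((Nat.sqrt ⌊Y⌋₊ + 1 : ℕ) : ℤ) ^ 2 := by exact_mod_cast h6
    omega
  · have s1 : (Nat.sqrt ⌊Y⌋₊ : ℝ) ≤ √Y :=
      Real.le_sqrt_of_sq_le (le_trans (by exact_mod_cast Nat.sqrt_le' ⌊Y⌋₊) (Nat.floor_le Y0.le))
    have s2 : 1 ≤ √Y := Real.one_le_sqrt.2 (by linarith)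
    have s3 : ((Nat.sqrt ⌊Y⌋₊ + 1 : ℕ) : ℝ) + 1 ≤ 3 * √Y := by push_cast; linarith
    have s4 : √Y ^ 3 = Y ^ (3 / 2 : ℝ) := by
      rw [Real.sqrt_eq_rpow, ← Real.rpow_natCast, ← Real.rpow_mul Y0.le]; norm_num
    have s5 : √Y ^ 2 = Y := Real.sq_sqrt Y0.le
    have l2 : 0 < Real.log 2 := Real.log_pos one_lt_two
    have l3 : Real.log 2 ≤ Real.log Y := Real.log_le_log two_pos hY
    have l4 : 0 ≤ Real.log (9 * c) := Real.log_nonneg (by linarith)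
    have s0 : (1 : ℝ) ≤ ((Nat.sqrt ⌊Y⌋₊ + 1 : ℕ) : ℝ) + 1 := le_add_of_nonneg_left (Nat.cast_nonneg _)
    generalize ((Nat.sqrt ⌊Y⌋₊ + 1 : ℕ) : ℝ) + 1 = u at *
    have l5 : Real.log (c * u ^ 2) ≤ (Real.log (9 * c) / Real.log 2 + 1) * Real.log Y := by
      calc Real.log (c * u ^ 2) ≤ Real.log (c * (3 * √Y) ^ 2) := by gcongr
        _ = Real.log (9 * c) + Real.log Y := by
          rw [← Real.log_mul (by positivity) Y0.ne', mul_pow, s5]; congr 1; ring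
        _ = Real.log (9 * c) / Real.log 2 * Real.log 2 + Real.log Y := by field_simp
        _ ≤ Real.log (9 * c) / Real.log 2 * Real.log Y + Real.log Y := by gcongr
        _ = _ := by ring
    have l6 : 0 ≤ Real.log (c * u ^ 2) := Real.log_nonneg (by nlinarith)
    calc _ ≤ Module.finrank ℚ K * (190 * (3 * √Y) ^ 3
          * ((Real.log (9 * c) / Real.log 2 + 1) * Real.log Y)) := by gcongr
      _ = _ := by rw [mul_pow, s4]; ring

end Pool.Agent.Results.MP_c481b3_nt.EdgeAngles
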