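import Pool.Agent.MP_c481b3_nt.H31F.GlueI
import Pool.Agent.MP_c481b3_nt.H31F.All
import Pool.Agent.MP_c481b3_nt.H31F.Tm
import Pool.Agent.MP_c481b3_nt.H31F.Aut
import Pool.Agent.MP_c481b3_nt.H31F.Vls
import Pool.Agent.MP_c481b3_nt.H31F.Val2
import Pool.Agent.MP_c481b3_nt.H31F.Gen
import Pool.Agent.MP_c481b3_nt.H31F.Dec
import Pool.Agent.MP_c481b3_nt.H31F.Stab
import Pool.Agent.MP_c481b3_nt.H31F.Ord
import Pool.Agent.MP_c481b3_nt.H31F.Pr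
import Pool.Agent.MP_c481b3_nt.H31F.Phi
import Pool.Agent.MP_c481b3_nt.H31F.Pi
import Pool.Agent.MP_c481b3_nt.H31F.Nor2
import Pool.Agent.MP_c481b3_nt.H31F.Intj2
import Pool.Agent.MP_c481b3_nt.H31F.Loc2
import Pool.Agent.MP_c481b3_nt.H31F.Can1
import Pool.Agent.MP_c481b3_nt.H31F.Can2
import Pool.Agent.MP_c481b3_nt.H31F.Can3
import Pool.Agent.MP_c481b3_nt.H31F.K4
import Pool.Agent.MP_c481b3_nt.H31F.U2
import Pool.Agent.MP_c481b3_nt.H31F.U3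
import Pool.Agent.MP_c481b3_nt.H31F.Link2
import Pool.Agent.MP_c481b3_nt.H31F.Srv
import Pool.Agent.MP_c481b3_nt.H31F.Dpr
import Pool.Agent.MP_c481b3_nt.H31F.Ht
import Pool.Agent.MP_c481b3_nt.H31F.Cnt
import Pool.Agent.MP_c481b3_nt.H31F.Cmp2
import Pool.Agent.MP_c481b3_nt.H31F.Cmp3
import Pool.Agent.MP_c481b3_nt.H31F.Ord2
import Pool.Agent.MP_c481b3_nt.H31F.Tm2
import Pool.Agent.MP_c481b3_nt.H31F.Gen2
import Pool.Agent.MP_c481b3_nt.H31F.Ht2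
import Pool.Agent.MP_c481b3_nt.H31F.Orb2
import Pool.Agent.MP_c481b3_nt.H31F.Br

set_option autoImplicit false

namespace Pool.Agent.Results.MP_c481b3_nt.FrobeniusFields

open NumberField Filter Pool.Agent.MP_c481b3_nt.H81

/-- the trace of Frobenius `a_P = N P + 1 - #E(O_K / P)` of `y^2 = x^3 + A x + B` -/
noncomputable def trace {K : Type} [Field K] [NumberField K] (A B : 𝓞 K) (P : Ideal (𝓞 K)) : ℤ :=
  (Ideal.absNorm P : ℤ) + 1 - Nat.card ((Wc A B).map (Ideal.Quotient.mk P)).toAffine.Point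

/-- ordinary reduction with Frobenius field `Q(√d)` -/
def FrobField {K : Type} [Field K] [NumberField K] (A B : 𝓞 K) (d : ℤ) (P : Ideal (𝓞 K)) : Prop :=
  ((trace A B P : ℤ) : 𝓞 K) ∉ P ∧ IsSquare ((trace A B P ^ 2 - 4 * Ideal.absNorm P) * d)

open Pool.Agent.MP_c481b3_nt.H31F in
theorem result (K : Type) [Field K] [NumberField K] (A B : 𝓞 K) (hΔ : (Wc A B).Δ ≠ 0)
    (u w : K) (hu : u = (Wc A B).Δ / B ^ 2) (D : ℤ) (i : ℕ) (hw : w ^ 2 = D * u ^ i)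
    (d : ℕ) (hd : Squarefree d)
    (ht : (i = 2 ∧ D < 0) ∨ (i = 1 ∧ ((0 < D ∧ D % 4 = 1 ∧ d % 4 = 3) ∨
      (D < 0 ∧ ((D % 4 = 3 ∧ d % 4 ≠ 1) ∨ (D % 4 = 2 ∧ (d % 2 = 1 ∨ D % 8 = d % 8)))))))
    (l : ℕ) (hl : l.Prime) (h5 : 5 ≤ l)
    (hv : ∀ v : IsDedekindDomain.HeightOneSpectrum (𝓞 K), (l : 𝓞 K) ∈ v.asIdeal →
      v.valuation K u < 1)
    (hk : ∀ k : ℕ, 1 ≤ k → padicNorm l (Algebra.trace ℚ K (w * u ^ k) / (2 * k + i))
      < padicNorm l (Algebra.trace ℚ K w)) :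
    ∃ c : ℝ, 0 < c ∧ ∀ᶠ x : ℝ in atTop,
      c * Real.log x ^ (1 / 3 : ℝ) / Real.log (Real.log x) ^ (5 / 3 : ℝ) ≤
        ({P : Ideal (𝓞 K) | P.IsMaximal ∧ (Wc A B).Δ ∉ P ∧ FrobField A B (-d) P ∧
          (Ideal.absNorm P : ℝ) ≤ x}.ncard : ℝ) := by
  have k4 := k4_of b1.y1 u1
  have c1 := can1_of b2
  have c2 := can2_of b2 c1 k4
  have ij := intj2_of b2 vls
  have sj := surj_of b1 b2.lv
  have fb := fab_of y2 b1.pol
  have st := stab_of b2 dec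
  have lc := loc2_of mat c1 c2 pi ij vls
  have u3 := u3_of b1.y1 u1 u2
  have sv := srv_of b2 k4 pi (can3_of b2 c1) (phi_of b2 sj aut vls) nor2 ij vls
  have br := br_of vls K u l hl hv
  have : Concl A B d := by
    rcases ht with ⟨rfl, D0⟩ | ⟨rfl, ht⟩
    · exact main2 mat (tm2_of b1 b2.lv) aut vls (span2_of b1.pol) val2 (gen2_of b1.pol fb)
        (ord2_of b2 st) (pr2_of mat) sj pi nor2 ij lc u3 link2 sv (ht2_of b2) cnt
        (orb2_of aut ij (cmp3_of b1 pi c2 ij vls) (inf_of k4)) (ple_of aut vls) hΔ hu D0 hw hd hl h5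
        br hk
    · exact main1 mat (tm_of b1 b2.lv) aut vls fb val2 (gen_of b1.pol) (ord_of b2 st) (pr_of mat)
        sj pi nor2 ij lc u3 link2 sv (ht_of b1 (dpr_of b2)) cnt
        (cmp2_of b1 (eps2_of b1 k4) pi c2 ij vls) hΔ hu (by simpa using hw) hd ht hl h5 br hk
  simp only [Concl, Set.mem_ofPred_eq, and_assoc] at this
  exact this

end Pool.Agent.Results.MP_c481b3_nt.FrobeniusFields
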