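import Pool.Agent.MP_c481b3_nt.H79.All

set_option autoImplicit false

namespace Pool.Agent.Results.MP_c481b3_nt.PadicElkies

open NumberField Polynomial

/-- the curve `y^2 = x^3 + A x + B` -/
def Wc {R : Type} [CommRing R] (A B : R) : WeierstrassCurve R := ⟨0, 0, 0, A, B⟩

/-- the trace of Frobenius `a_P = N P + 1 - #E(O_K / P)` of `y^2 = x^3 + A x + B` -/
noncomputable def trace {K : Type} [Field K] [NumberField K] (A B : 𝓞 K) (P : Ideal (𝓞 K)) : ℤ :=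
  (Ideal.absNorm P : ℤ) + 1 - Nat.card ((Wc A B).map (Ideal.Quotient.mk P)).toAffine.Point

theorem result (K : Type) [Field K] [NumberField K] (A B : 𝓞 K) (j : K) (p : ℕ)
    (hΔ : (Wc A B).Δ ≠ 0) (hj : j = 6912 * (A : K) ^ 3 / (4 * (A : K) ^ 3 + 27 * (B : K) ^ 2))
    (hr : ∀ τ : K →+* ℂ, (τ j).im ≠ 0) (hp : p.Prime) (h5 : 5 ≤ p)
    (h : (∃ P : Ideal (𝓞 K), Ideal.absNorm P = p ∧ (p : 𝓞 K) ∉ P ^ 2 ∧ (Wc A B).Δ ∉ P ∧
          trace A B P = 0) ∨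
        ∃ a b : ℤ, ¬(p : ℤ) ∣ 4 * a ^ 3 + 27 * b ^ 2 ∧
          Nat.card (Wc (a : ZMod p) b).toAffine.Point = p + 1 ∧
          Odd (padicValRat p (aeval (6912 * a ^ 3 / (4 * a ^ 3 + 27 * b ^ 2) : ℚ) (minpoly ℚ j)
            * aeval (1728 : ℚ) (minpoly ℚ j)))) :
    {P : Ideal (𝓞 K) | P.IsMaximal ∧ (Wc A B).Δ ∉ P ∧
        ∃ q : ℕ, q.Prime ∧ (q : 𝓞 K) ∈ P ∧ (q : ℤ) ∣ trace A B P}.Infinite ∧
      (Odd (Module.finrank (IntermediateField.adjoin ℚ {j}) K) →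
        {P : Ideal (𝓞 K) | P.IsMaximal ∧ (Wc A B).Δ ∉ P ∧ trace A B P = 0}.Infinite) ∧
      (IntermediateField.adjoin ℚ {j} = ⊤ → {P : Ideal (𝓞 K) | (P.IsMaximal ∧ (Wc A B).Δ ∉ P ∧
        trace A B P = 0) ∧ (Ideal.absNorm P).Prime}.Infinite) := by
  subst hj
  open Pool.Agent.MP_c481b3_nt.H79 in
  exact main K A B hΔ hr p hp h5
    (h.elim (fun ⟨P, a, b, c, d⟩ => hen2_of hen1 K A B p P hr hp h5 a b c d) id)

end Pool.Agent.Results.MP_c481b3_nt.PadicElkies
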