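import Pool.Agent.MP_c481b3_nt.H28K.Glue3
import Pool.Agent.MP_c481b3_nt.H28K.TwoP
import Pool.Agent.MP_c481b3_nt.H28K.TwoL
import Pool.Agent.MP_c481b3_nt.H28K.Red
import Pool.Agent.MP_c481b3_nt.H28K.NcIs
import Pool.Agent.MP_c481b3_nt.H28K.NcT
import Pool.Agent.MP_c481b3_nt.H28K.SsT
import Pool.Agent.MP_c481b3_nt.H28K.Win
import Pool.Agent.MP_c481b3_nt.H28K.PntAP
import Pool.Agent.MP_c481b3_nt.H28K.Kill
import Pool.Agent.MP_c481b3_nt.H28K.Grx
import Pool.Agent.MP_c481b3_nt.H28K.Wt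
import Pool.Agent.MP_c481b3_nt.H28K.SymJ
import Pool.Agent.MP_c481b3_nt.H28K.ModP
import Pool.Agent.MP_c481b3_nt.H28K.DistJ
import Pool.Agent.MP_c481b3_nt.H28K.Kron2
import Pool.Agent.MP_c481b3_nt.H28K.KronE
import Pool.Agent.MP_c481b3_nt.H28K.Gauss
import Pool.Agent.MP_c481b3_nt.H28K.Stab
import Pool.Agent.MP_c481b3_nt.H28K.PerRel
import Pool.Agent.MP_c481b3_nt.H28K.Area
import Pool.Agent.MP_c481b3_nt.H28K.Mono
import Pool.Agent.MP_c481b3_nt.H28K.UV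
import Pool.Agent.MP_c481b3_nt.H28K.DiscS
import Pool.Agent.MP_c481b3_nt.H28K.AtL2
import Pool.Agent.MP_c481b3_nt.H28K.Par2
import Pool.Agent.MP_c481b3_nt.H28K.Cov3
import Pool.Agent.MP_c481b3_nt.H28K.Allow
import Pool.Agent.MP_c481b3_nt.H28K.DensL
import Pool.Agent.MP_c481b3_nt.H31.Ht

set_option autoImplicit false

namespace Pool.Agent.Results.MP_c481b3_nt.SupersingularCount

open NumberField Filter Pool.Agent.MP_c481b3_nt.H81 Pool.Agent.MP_c481b3_nt.H28K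

/-- the trace of Frobenius `a_P = N P + 1 - #E(O_K / P)` of `y^2 = x^3 + A x + B` -/
noncomputable def trace {K : Type} [Field K] [NumberField K] (A B : 𝓞 K) (P : Ideal (𝓞 K)) : ℤ :=
  (Ideal.absNorm P : ℤ) + 1 - Nat.card ((Wc A B).map (Ideal.Quotient.mk P)).toAffine.Point

open Classical in
theorem result (K : Type) [Field K] [NumberField K] (A B : 𝓞 K) (hΔ : (Wc A B).Δ ≠ 0)
    (hw : ∃ (τ : K →+* ℂ) (w : ℝ), τ A ^ 3 = w * τ B ^ 2)
    (hCM : NoCM (algebraMap (𝓞 K) (AlgebraicClosure K) A)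
      (algebraMap (𝓞 K) (AlgebraicClosure K) B)) :
    ∃ c : ℝ, 0 < c ∧ ∀ᶠ x : ℝ in atTop,
      Real.exp (c * Real.log (Real.log x) / Real.log (Real.log (Real.log x)) ^ 2) ≤
        ({P : Ideal (𝓞 K) | P.IsMaximal ∧ (Wc A B).Δ ∉ P ∧
          (∃ p : ℕ, p.Prime ∧ (p : 𝓞 K) ∈ P ∧ (p : ℤ) ∣ trace A B P) ∧
          (Ideal.absNorm P : ℝ) ≤ x}.ncard : ℝ) :=
  mainR_of (countK3_of (win_of pntAP) (kill_of greedy wt exc) cover2)
    (elk3_of (symJ_of modPoly distinctJ) (kron2_of kronEv gauss)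
      (stab_of (perRel_of area) (perMono_of uv)) (perRel_of area) discSign (perMono_of uv)
      (atL2_of rootSD2) oddCov2)
    cov3 allow densL Pool.Agent.MP_c481b3_nt.H31.ht
    (red_of (twoL_of (twoP_of area) (perMono_of uv)) (perInj_of uv) (perMono_of uv))
    (ncT_of ncIs) (ssT_of isTwo) hw hΔ hCM

end Pool.Agent.Results.MP_c481b3_nt.SupersingularCount
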